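import Pool.Agent.W2helper74.SOS.Stm4
import Pool.Agent.W2helper18.SOS.J9a

/-!
Project S1FULL (MP_ce7760_an, owner helper74), piece P10: `NumR3`.
-/

set_option autoImplicit false

namespace Pool.Agent.W2helper3.SOS

open Pool.Agent.W2helper74.SOS

/-- (T1) -/
theorem t1 {n m R : ℕ} (hn : 1 ≤ n) (h1 : 4 * (n - 1) ≤ R * R)
    (h2 : n * (R - 1) ≤ m) : InS n m := by
  by_cases hm : n * n ≤ m
  · exact Or.inl hm
  right
  push Not at hm
  obtain ⟨q, s, hq, hs⟩ : ∃ q s, m + s = n * q ∧ s < n := by
    have h3 := Nat.div_add_mod m n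
    have h4 := Nat.mod_lt m (show 0 < n by omega)
    rcases Nat.eq_zero_or_pos (m % n) with h5 | h5
    · exact ⟨m / n, 0, by omega, by omega⟩
    · refine ⟨m / n + 1, n - m % n, ?_, by omega⟩
      rw [Nat.mul_add, mul_one]
      omega
  have hqn : q ≤ n := by
    by_contra h
    have h5 : n * (n + 1) ≤ n * q := Nat.mul_le_mul_left n (by omega)
    have h6 : n * (n + 1) = n * n + n := by ring
    omega
  refine ⟨q, s, hqn, hq, Or.inl ?_⟩
  rcases Nat.eq_zero_or_pos s with h5 | h5
  · omega
  have hRq : R ≤ q := by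
    by_contra h
    have h6 : n * q ≤ n * (R - 1) := Nat.mul_le_mul_left n (by omega)
    omega
  have h7 : R * R ≤ q * q := Nat.mul_le_mul hRq hRq
  omega

/-- boolean version of `InS` -/
def inSb (n m : ℕ) : Bool := decide (n * n ≤ m) || (List.range (n + 1)).any fun r =>
  decide (m ≤ n * r) && (decide (n * r - m ≤ r * r / 4) || (List.range (r + 1)).any fun a =>
    decide (r + 1 ≤ 2 * a) && (decide (a * (a - 1) / 2 ≤ n * r - m) &&
      decide (n * r - m ≤ a * (a - 1) / 2 + (r + 1 - a) * (r - a) / 2)))

theorem inS_of_b {n m : ℕ} (h : inSb n m = true) : InS n m := by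
  unfold inSb at h
  rw [Bool.or_eq_true, decide_eq_true_eq, List.any_eq_true] at h
  rcases h with h | ⟨r, hr, h⟩
  · exact Or.inl h
  right
  rw [List.mem_range] at hr
  rw [Bool.and_eq_true, decide_eq_true_eq, Bool.or_eq_true, decide_eq_true_eq,
    List.any_eq_true] at h
  obtain ⟨h1, h⟩ := h
  refine ⟨r, n * r - m, by omega, by omega, ?_⟩
  rcases h with h | ⟨a, ha, h⟩
  · exact Or.inl h
  · right
    rw [List.mem_range] at ha
    simp only [Bool.and_eq_true, decide_eq_true_eq] at h
    exact ⟨a, by omega, h.1, h.2.1, h.2.2⟩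

/-- the lower bound for `M f` -/
def SL (c f : ℕ) : ℕ := ∑ j ∈ Finset.range f, min (2 * j + 1) c

/-- a boolean version which the kernel can compute -/
def SB (c : ℕ) : ℕ → ℕ
  | 0 => 0
  | f + 1 => SB c f + min (2 * f + 1) c

theorem SL_eq (c f : ℕ) : SL c f = SB c f := by
  induction f with
  | zero => rfl
  | succ f ih =>
    rw [SL, Finset.sum_range_succ]
    change SL c f + _ = _
    rw [ih]
    rfl

/-- the general bounds -/
theorem bounds (n : ℕ) (M : ℕ → ℕ) (hn : 7 ≤ n) (hm : ∀ j, M j ≤ M (j + 1)) (h1 : M 1 = 1)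
    (hC : ∀ j, 1 ≤ j → j + 1 ≤ n → min (M (j + 1) - M j) j ≤ M j - M (j - 1))
    (hS : ∀ j, 2 ≤ j → j + 1 ≤ n → M (j + 1) - M j ≤ j → M (j + 1) - M j ≠ M j - M (j - 1))
    (h3 : ∀ j, 2 ≤ j → j + 1 ≤ n → j + 1 ≤ M (j + 1) - M j → j + 1 ≤ M j - M (j - 1))
    (hB : ∀ j, 2 ≤ j → j + 1 ≤ n → 2 * j ≤ n + 1 →
      min (2 * j - 1) (M (j + 1) - M j) ≤ M j - M (j - 1))
    (hA : ∀ t, 1 ≤ t → t + 1 ≤ n → M t + M (n - t) ≤ M n) :
    M 0 = 0 ∧ (∀ j, 2 ≤ j → j + 1 ≤ n → n + 1 ≤ 2 * j → M (j - 1) + (n + 2 - j) ≤ M j) ∧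
    (∀ j, 2 ≤ j → 2 * j ≤ n + 1 → M (j - 1) + min (2 * j - 1) (n + 2 - (n + 2) / 2) ≤ M j) ∧
    (∀ f, 2 * f ≤ n + 1 → SL (n + 2 - (n + 2) / 2) f ≤ M f) := by
  obtain ⟨k, hk⟩ : ∃ k : ℕ → ℕ, ∀ j, k (j + 1) = M (j + 1) - M j :=
    ⟨fun j => M j - M (j - 1), fun j => rfl⟩
  have hMk : ∀ j, M (j + 1) = M j + k (j + 1) := by
    intro j
    rw [hk]
    have := hm j
    omega
  have hk' : ∀ j, 1 ≤ j → M j - M (j - 1) = k j := by
    intro j hj
    obtain ⟨i, rfl⟩ : ∃ i, j = i + 1 := ⟨j - 1, by omega⟩
    rw [hk]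
    rfl
  have hstep : ∀ j, 2 ≤ j → j + 1 ≤ n → min (k (j + 1)) j + 1 ≤ k j := by
    intro j hj hjn
    have a1 := hC j (by omega) hjn
    have a2 := hS j hj hjn
    have a3 := h3 j hj hjn
    rw [← hk, hk' j (by omega)] at a1 a2 a3
    omega
  have hk1 : 1 ≤ n - 1 := by omega
  have hkn : 1 ≤ k n := by
    have a1 := hA (n - 1) (by omega) (by omega)
    have a2 : n - (n - 1) = 1 := by omega
    rw [a2, h1] at a1
    have a3 := hk' n (by omega)
    omega
  have c1 : ∀ i j, j + i = n → 2 ≤ j → min (j + 1) (n - j + 1) ≤ k j := by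
    intro i
    induction i with
    | zero =>
      intro j hj hj2
      have : j = n := by omega
      subst this
      omega
    | succ i ih =>
      intro j hj hj2
      have a1 := ih (j + 1) (by omega) (by omega)
      have a2 := hstep j hj2 (by omega)
      omega
  have hk2 : 3 ≤ k 2 := by
    have := c1 (n - 2) 2 (by omega) le_rfl
    omega
  have hM2 : 4 ≤ M 2 := by
    have := hMk 1
    simp only [Nat.reduceAdd] at this
    omega
  have hkn1 : 3 ≤ k (n - 1) := by
    have a1 := hA (n - 2) (by omega) (by omega)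
    have a2 : n - (n - 2) = 2 := by omega
    rw [a2] at a1
    have a3 := hk' n (by omega)
    have a4 := hk' (n - 1) (by omega)
    have a5 : n - 1 - 1 = n - 2 := by omega
    rw [a5] at a4
    have a6 := hstep (n - 1) (by omega) (by omega)
    have a7 : n - 1 + 1 = n := by omega
    rw [a7] at a6
    omega
  have c2 : ∀ i j, j + i + 1 = n → 2 ≤ j → min (j + 1) (n + 2 - j) ≤ k j := by
    intro i
    induction i with
    | zero =>
      intro j hj hj2
      have : j = n - 1 := by omega
      subst this
      omega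
    | succ i ih =>
      intro j hj hj2
      have a1 := ih (j + 1) (by omega) (by omega)
      have a2 := hstep j hj2 (by omega)
      omega
  have hM0 : M 0 = 0 := by
    have a1 := hC 1 le_rfl (by omega)
    have a2 := hk 1
    have a3 := hMk 0
    simp only [Nat.reduceAdd, Nat.reduceSub, zero_add] at a1 a2 a3
    omega
  have c3 : ∀ i j, j + i = (n + 1) / 2 → 2 ≤ j →
      min (2 * j - 1) (n + 2 - (n + 2) / 2) ≤ k j := by
    intro i
    induction i with
    | zero =>
      intro j hj hj2
      rcases Nat.even_or_odd n with ⟨q, hq⟩ | ⟨q, hq⟩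
      · have a1 := c2 (n - (j + 1) - 1) (j + 1) (by omega) (by omega)
        have a2 := hB j hj2 (by omega) (by omega)
        rw [← hk, hk' j (by omega)] at a2
        omega
      · have a1 := c2 (n - j - 1) j (by omega) (by omega)
        omega
    | succ i ih =>
      intro j hj hj2
      have a1 := ih (j + 1) (by omega) (by omega)
      have a2 := hB j hj2 (by omega) (by omega)
      rw [← hk, hk' j (by omega)] at a2
      omega
  refine ⟨hM0, ?_, ?_, ?_⟩
  · intro j hj hjn hj2
    have a1 := c2 (n - j - 1) j (by omega) hj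
    have a2 := hk' j (by omega)
    omega
  · intro j hj hj2
    have a1 := c3 ((n + 1) / 2 - j) j (by omega) hj
    have a2 := hk' j (by omega)
    have a3 := hMk (j - 1)
    have a4 : j - 1 + 1 = j := by omega
    rw [a4] at a3
    omega
  · intro f
    induction f with
    | zero =>
      intro _
      exact Nat.zero_le _
    | succ f ih =>
      intro hf
      have a1 := ih (by omega)
      rw [SL, Finset.sum_range_succ]
      change SL _ f + _ ≤ _
      rcases Nat.eq_zero_or_pos f with h0 | h0
      · subst h0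
        have : SL (n + 2 - (n + 2) / 2) 0 = 0 := rfl
        rw [this, h1]
        omega
      · have a2 := c3 ((n + 1) / 2 - (f + 1)) (f + 1) (by omega) (by omega)
        have a3 := hMk f
        omega

theorem small1 : ∀ n, n < 64 → 23 ≤ n → ∃ R, R ≤ 16 ∧ 4 * (n - 1) ≤ R * R ∧
    n * (R - 1) ≤ SB (n + 2 - (n + 2) / 2) (n / 2) +
      SB (n + 2 - (n + 2) / 2) (n - n / 2) := by
  decide +kernel

theorem small2 : ∀ n, n < 23 → 11 ≤ n → ∀ m, m < 200 →
    SB (n + 2 - (n + 2) / 2) (n / 2) + SB (n + 2 - (n + 2) / 2) (n - n / 2) ≤ m →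
    inSb n m = true := by
  decide +kernel

theorem small3 : ∀ m, m < 120 → (24 ≤ m → inSb 7 m = true) ∧ (28 ≤ m → inSb 8 m = true) ∧
    (36 ≤ m → m ≠ 37 → inSb 9 m = true) ∧ (43 ≤ m → inSb 10 m = true) := by
  decide +kernel

theorem numR3 : NumR3 := by
  intro n M hn hm h1 hC hS h3 hB hA
  obtain ⟨hM0, b1, b2, b3⟩ := bounds n M hn hm h1 hC hS h3 hB hA
  have hf : SB (n + 2 - (n + 2) / 2) (n / 2) + SB (n + 2 - (n + 2) / 2) (n - n / 2) ≤ M n := by
    rw [← SL_eq, ← SL_eq]
    have a1 := b3 (n / 2) (by omega)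
    have a2 := b3 (n - n / 2) (by omega)
    have a3 := hA (n / 2) (by omega) (by omega)
    omega
  rcases Nat.lt_or_ge 10 n with hn11 | hn11
  · refine ⟨by omega, Or.inl ?_⟩
    rcases Nat.lt_or_ge n 64 with h64 | h64
    · rcases Nat.lt_or_ge n 23 with h17 | h17
      · rcases Nat.lt_or_ge (M n) 200 with h | h
        · exact inS_of_b (small2 n h17 (by omega) (M n) h hf)
        · exact t1 (R := 10) (by omega) (by omega) (by omega)
      · obtain ⟨R, _, r2, r3⟩ := small1 n h64 h17
        exact t1 (by omega) r2 (r3.trans hf)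
    · -- large `n`
      have hN := Pool.Agent.W2helper18.SOS.num n ((n - 1) / 2) M (by omega) (by omega) hm
        (by omega) hC (fun j a b c _ => hS j a b c) h3 (hA 1 le_rfl (by omega)) ?_
      · have hq1 := Nat.sqrt_le (4 * (n - 1))
        obtain ⟨q, hq⟩ : ∃ q, q = Nat.sqrt (4 * (n - 1)) := ⟨_, rfl⟩
        have hq3 := Nat.sqrt_lt.1 (Nat.lt_succ_self (Nat.sqrt (4 * (n - 1))))
        rw [← hq] at hq1 hq3
        have hq4 : 4 * q ≤ n := by
          by_contra h
          push Not at h
          have e1 : n * n < (4 * q) * (4 * q) := Nat.mul_lt_mul'' h h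
          have e2 : (4 * q) * (4 * q) = 16 * (q * q) := by ring
          have e3 : 64 * n ≤ n * n := Nat.mul_le_mul_right n h64
          omega
        refine t1 (R := q + 1) (by omega) hq3.le ?_
        have e4 : n * (q + 1 - 1) = n * q := by rw [Nat.add_sub_cancel]
        rw [e4]
        have e5 : 4 * (n * q) ≤ n * n := by
          have : n * (4 * q) ≤ n * n := Nat.mul_le_mul_left n hq4
          have e6 : n * (4 * q) = 4 * (n * q) := by ring
          omega
        obtain ⟨κ, hκ⟩ : ∃ κ, κ = (n - 1) / 2 := ⟨_, rfl⟩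
        rw [← hκ] at hN
        rcases (show n = 2 * κ + 1 ∨ n = 2 * κ + 2 by omega) with e7 | e7
        · have e8 : n + 1 - κ = κ + 2 := by omega
          rw [e8] at hN
          have e9 : n * n = 4 * (κ * κ) + 4 * κ + 1 := by rw [e7]; ring
          have e10 : (κ + 2) * (κ + 2) = κ * κ + 4 * κ + 4 := by ring
          omega
        · have e8 : n + 1 - κ = κ + 3 := by omega
          rw [e8] at hN
          have e9 : n * n = 4 * (κ * κ) + 8 * κ + 4 := by rw [e7]; ring
          have e10 : (κ + 2) * (κ + 3) = κ * κ + 5 * κ + 6 := by ring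
          omega
      · exact hA 2 (by omega) (by omega)
  · -- `n = 7, 8, 9, 10`
    have hbig : ∀ R, 4 * (n - 1) ≤ R * R → n * (R - 1) ≤ M n → InS n (M n) :=
      fun R r1 r2 => t1 (by omega) r1 r2
    have hbg : 120 ≤ M n → InS n (M n) := fun h => t1 (R := 6) (by omega) (by omega) (by omega)
    rcases (show n = 7 ∨ n = 8 ∨ n = 9 ∨ n = 10 by omega) with rfl | rfl | rfl | rfl
    · -- `n = 7`
      have k4 : M 3 + 5 ≤ M 4 ∧ M 2 + 5 ≤ M 3 ∧ 4 ≤ M 2 := by
        have k2 := b2 2 le_rfl (by omega)
        have k3 := b2 3 (by omega) (by omega)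
        have k4 := b2 4 (by omega) (by omega)
        simp only [Nat.reduceAdd, Nat.reduceSub, Nat.reduceMul, Nat.reduceDiv] at k2 k3 k4
        clear hC hS h3 hB hA b1 b2 b3 hf hbig hbg
        omega
      have A3 := hA 3 (by omega) (by omega)
      simp only [Nat.reduceSub] at A3
      refine ⟨by omega, ?_⟩
      by_cases h24 : 24 ≤ M 7
      · left
        rcases Nat.lt_or_ge (M 7) 120 with h | h
        · exact inS_of_b ((small3 (M 7) h).1 h24)
        · exact hbg h
      · right
        left
        have w4 : M 7 = 23 ∧ M 2 = 4 ∧ M 3 = 9 ∧ M 4 = 14 := by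
          clear hC hS h3 hB hA b1 b2 b3 hf hbig hbg
          omega
        have k5 := b1 5 (by omega) (by omega) (by omega)
        have k6 := b1 6 (by omega) (by omega) (by omega)
        have A1 := hA 1 (by omega) (by omega)
        have A2 := hA 2 (by omega) (by omega)
        have C5 := hC 5 (by omega) (by omega)
        have S5 := hS 5 (by omega) (by omega)
        simp only [Nat.reduceAdd, Nat.reduceSub] at k5 k6 A1 A2 C5 S5
        clear hC hS h3 hB hA b1 b2 b3 hf hbig hbg
        refine ⟨rfl, w4.1, w4.2.1, w4.2.2.1, w4.2.2.2, ?_⟩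
        omega
    · refine ⟨by omega, Or.inl ?_⟩
      have h28 : 28 ≤ M 8 := le_trans (by decide) hf
      rcases Nat.lt_or_ge (M 8) 120 with h | h
      · exact inS_of_b ((small3 (M 8) h).2.1 h28)
      · exact hbg h
    · refine ⟨by omega, ?_⟩
      have h36 : 36 ≤ M 9 := le_trans (by decide) hf
      by_cases h37 : M 9 = 37
      · right
        right
        have k2 := b2 2 le_rfl (by omega)
        have k3 := b2 3 (by omega) (by omega)
        have k4 := b2 4 (by omega) (by omega)
        have k5 := b2 5 (by omega) (by omega)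
        have A4 := hA 4 (by omega) (by omega)
        have B4 := hB 4 (by omega) (by omega) (by omega)
        simp only [Nat.reduceAdd, Nat.reduceSub, Nat.reduceMul, Nat.reduceDiv] at *
        refine ⟨by simp, by omega, by omega, by omega, by omega, by omega⟩
      · left
        rcases Nat.lt_or_ge (M 9) 120 with h | h
        · exact inS_of_b ((small3 (M 9) h).2.2.1 h36 h37)
        · exact hbg h
    · refine ⟨by omega, Or.inl ?_⟩
      have h42 : 42 ≤ M 10 := le_trans (by decide) hf
      have h43 : 43 ≤ M 10 := by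
        by_contra hcon
        have v4 : 15 ≤ M 4 ∧ M 4 + 6 ≤ M 5 := by
          have k2 := b2 2 le_rfl (by omega)
          have k3 := b2 3 (by omega) (by omega)
          have k4 := b2 4 (by omega) (by omega)
          have k5 := b2 5 (by omega) (by omega)
          simp only [Nat.reduceAdd, Nat.reduceSub, Nat.reduceMul, Nat.reduceDiv] at k2 k3 k4 k5
          clear hC hS h3 hB hA b1 b2 b3 hf hbig hbg
          omega
        have u5 : M 5 = 21 ∧ M 4 = 15 := by
          have A5 := hA 5 (by omega) (by omega)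
          simp only [Nat.reduceSub] at A5
          clear hC hS h3 hB hA b1 b2 b3 hf hbig hbg
          omega
        have u6 : M 6 = 27 := by
          have k6 := b1 6 (by omega) (by omega) (by omega)
          have B5 := hB 5 (by omega) (by omega) (by omega)
          simp only [Nat.reduceAdd, Nat.reduceSub, Nat.reduceMul] at k6 B5
          clear hC hS h3 hB hA b1 b2 b3 hf hbig hbg
          omega
        have u7 : M 7 = 32 := by
          have k7 := b1 7 (by omega) (by omega) (by omega)
          have C := hC 6 (by omega) (by omega)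
          have S := hS 6 (by omega) (by omega)
          have T := h3 6 (by omega) (by omega)
          simp only [Nat.reduceAdd, Nat.reduceSub] at k7 C S T
          clear hC hS h3 hB hA b1 b2 b3 hf hbig hbg
          omega
        have u8 : M 8 = 36 := by
          have k8 := b1 8 (by omega) (by omega) (by omega)
          have C := hC 7 (by omega) (by omega)
          have S := hS 7 (by omega) (by omega)
          have T := h3 7 (by omega) (by omega)
          simp only [Nat.reduceAdd, Nat.reduceSub] at k8 C S T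
          clear hC hS h3 hB hA b1 b2 b3 hf hbig hbg
          omega
        have u9 : M 9 = 39 := by
          have k9 := b1 9 (by omega) (by omega) (by omega)
          have C := hC 8 (by omega) (by omega)
          have S := hS 8 (by omega) (by omega)
          have T := h3 8 (by omega) (by omega)
          simp only [Nat.reduceAdd, Nat.reduceSub] at k9 C S T
          clear hC hS h3 hB hA b1 b2 b3 hf hbig hbg
          omega
        have C := hC 9 (by omega) (by omega)
        have S := hS 9 (by omega) (by omega)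
        have T := h3 9 (by omega) (by omega)
        simp only [Nat.reduceAdd, Nat.reduceSub] at C S T
        clear hC hS h3 hB hA b1 b2 b3 hf hbig hbg
        omega
      rcases Nat.lt_or_ge (M 10) 120 with h | h
      · exact inS_of_b ((small3 (M 10) h).2.2.2 h43)
      · exact hbg h

end Pool.Agent.W2helper3.SOS
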