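import Pool.Agent.W2helper74.SOS.Stm4
import Pool.Agent.W2helper74.SOS.Final

/-!
Project S1FULL (MP_ce7760_an, owner helper74), piece P18: `Sp2`.
-/

set_option autoImplicit false

namespace Pool.Agent.W2helper3.SOS

open MvPolynomial Pool.Agent.W2helper74.SOS

/-- a `Dat` gives an element of `S1` -/
theorem dat_mem {n m r D : ℕ} (d : Dat n m r D) : m ∈ S1 n := by
  refine ⟨d.p, d.p_ind, ∑ i, ∑ l, C (d.a i l) * rename Sum.inl (d.e i) *
    rename Sum.inr (map (starRingEnd ℂ) (d.e l)), fun z => ?_⟩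
  have h := d.main z z
  have h1 : ∀ l, eval (fun k => (starRingEnd ℂ) (z k)) (map (starRingEnd ℂ) (d.e l)) =
      star (eval z (d.e l)) := by
    intro l
    rw [eval_map]
    exact (eval₂_comp_left (starRingEnd ℂ) (RingHom.id ℂ) z (d.e l)).symm
  have h2 : eval (Sum.elim z (fun k => (starRingEnd ℂ) (z k))) (∑ i, ∑ l, C (d.a i l) *
      rename Sum.inl (d.e i) * rename Sum.inr (map (starRingEnd ℂ) (d.e l))) =
      ∑ i, ∑ l, d.a i l * eval z (d.e i) * star (eval z (d.e l)) := by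
    simp only [map_sum, map_mul, eval_C, eval_rename]
    refine Finset.sum_congr rfl fun i _ => Finset.sum_congr rfl fun l _ => ?_
    rw [← h1]
    rfl
  rw [h2, pow_one]
  have h3 : ∀ c : ℂ, c * star c = ((‖c‖ ^ 2 : ℝ) : ℂ) := by
    intro c
    rw [Complex.star_def, Complex.mul_conj, Complex.normSq_eq_norm_sq]
  simp only [h3] at h
  push_cast at h ⊢
  exact h

theorem homV {n m r D : ℕ} (d : Dat n m r D) : ∀ e ∈ d.V, e.IsHomogeneous (D + 1) := by
  intro e he
  have hle : d.V ≤ homogeneousSubmodule (Fin n) ℂ (D + 1) := by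
    apply Submodule.span_le.2
    rintro _ ⟨i, rfl⟩
    exact d.p_hom i
  exact hle he

theorem pC1 : C1 := Pool.Agent.W2helper19.SOS.c1 Pool.Agent.W2helper12.SOS.pB1
  Pool.Agent.W2helper12.SOS.pB3 Pool.Agent.W2helper66.SOS.b4 Pool.Agent.W2helper66.SOS.b5

theorem pC2 : C2 := Pool.Agent.W2helper19.SOS.c2 Pool.Agent.W2helper12.SOS.pB1
  Pool.Agent.W2helper12.SOS.pB2 Pool.Agent.W2helper12.SOS.pB3 Pool.Agent.W2helper66.SOS.b4
  Pool.Agent.W2helper66.SOS.b5 Pool.Agent.W2helper12.SOS.pC2'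

theorem pA4 : A4 := Pool.Agent.W2helper4.SOS.a4 Pool.Agent.W2helper12.SOS.pB1
  Pool.Agent.W2helper12.SOS.pB2 Pool.Agent.W2helper12.SOS.pB3

/-- three squares in three variables: psd, and `mx V 2 = 2` -/
theorem three {r D : ℕ} (d : Dat 3 3 r D) : d.Psd ∧ mx d.V 2 = 2 := by
  have hfV := finV d
  obtain ⟨_, _, _, b4, b5⟩ := Pool.Agent.W2helper12.SOS.pB1 3 d.V inferInstance
  rw [hfV] at b4
  have a1 := pA4 3 3 r D d 1 le_rfl (by norm_num)
  have c1 := pC1 3 d.V inferInstance 1 le_rfl (by norm_num)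
  have c2 := pC1 3 d.V inferInstance 2 (by norm_num) (by norm_num)
  have m1 := b5 1
  have m2 := b5 2
  simp only [Nat.reduceAdd, Nat.reduceSub] at a1 c1 c2 m1 m2
  have e2 : mx d.V 2 = 2 := by omega
  have e1 : mx d.V 1 = 1 := by omega
  refine ⟨?_, e2⟩
  by_contra hn
  have h4 := Pool.Agent.W2helper18.SOS.f4 3 3 r D d hn
  have hr : 3 ≤ r := by
    by_contra h
    have : r = 0 ∨ r = 1 ∨ r = 2 := by omega
    rcases this with rfl | rfl | rfl <;> norm_num at h4
  obtain ⟨g, hgV, hgE⟩ := Pool.Agent.W2helper17.SOS.datAlg 3 3 r D d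
  have h5 := pC2 3 g 2 1 le_rfl le_rfl (by norm_num)
  rw [hgV, hgE, finE] at h5
  simp only [Nat.reduceAdd, Nat.reduceSub] at h5
  have h6 := h5 (by omega) (by omega)
  rcases h6 with h6 | h6
  · omega
  · apply hn
    apply Pool.Agent.W2helper22.SOSG.g'
    exact Pool.Agent.W2helper22.SOSG.g 3 D d.E inferInstance (homE d) (by rw [finE]; exact hr) h6

theorem sp2 (hSub : Sub) (hL : Last) : Sp2 := by
  intro r D d hd
  obtain ⟨⟨g, hg⟩, hg0, hg1⟩ := finrank_eq_one_iff'.1 hd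
  have hg0' : g ≠ 0 := fun h => hg0 (Subtype.ext h)
  have hgX : ∀ k, X k * g ∈ d.V := hg
  have hghom : g.IsHomogeneous D := by
    have h1 : X 0 * g ≠ 0 := mul_ne_zero (X_ne_zero _) hg0'
    obtain ⟨a, b, ha, hb, hab⟩ := Pool.Agent.W2helper4.SOS.isHomogeneous_of_mul h1
      (homV d _ (hgX 0))
    have h2 : a = 1 := ha.inj_right (isHomogeneous_X ℂ 0) (X_ne_zero _)
    have h3 : b = D := by omega
    rw [← h3]
    exact hb
  obtain ⟨m', r', d', hm1, hm2, hV1, hV2, -⟩ := hSub 3 5 r D d g (by norm_num) hg0' hghom hgX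
  have hm3 : m' = 3 := by
    have hS := dat_mem d'
    have h0 := conjecture hL 3 m' (by norm_num) hS 0
    have h4 : m' ≠ 4 := by
      rintro rfl
      exact hL hS
    omega
  subst hm3
  obtain ⟨hp, h2⟩ := three d'
  have h5 := Pool.Agent.W2helper22.SOSG.f5 3 3 r' D d' (by norm_num) hp
  have h6 := Pool.Agent.W2helper22.SOSG.f6 3 3 r' D d'
  simp only [Nat.reduceSub] at h5
  have hr : r' = 1 := by omega
  subst hr
  have h7 : ∀ k, X k * d'.e 0 ∈ d'.V := fun k => Pool.Agent.W2helper22.SOSG.X_mul_mem d' hp k 0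
  have h8 : d'.e 0 ≠ 0 := d'.e_ind.ne_zero 0
  obtain ⟨c, hc⟩ := hg1 ⟨d'.e 0, fun k => hV1 (h7 k)⟩
  have hc' : c • g = d'.e 0 := congrArg Subtype.val hc
  have hc0 : c ≠ 0 := by
    rintro rfl
    rw [zero_smul] at hc'
    exact h8 hc'.symm
  have h9 : ∀ k, X k * g ∈ d'.V := by
    intro k
    have h10 : X k * g = c⁻¹ • (X k * d'.e 0) := by
      rw [← hc', mul_smul_comm, smul_smul, inv_mul_cancel₀ hc0, one_smul]
    rw [h10]
    exact d'.V.smul_mem _ (h7 k)
  have h11 : d.V ≤ d'.V := by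
    refine hV2.trans (sup_le le_rfl ?_)
    rw [Submodule.span_le]
    rintro _ ⟨k, rfl⟩
    exact h9 k
  have h12 := Submodule.finrank_mono h11
  rw [finV, finV] at h12
  omega

end Pool.Agent.W2helper3.SOS
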